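import Pool.Agent.N209.GX.Defs

/-!
# Generic hyperplane sections with averages of correspondences: definitions
-/

set_option autoImplicit false

open CategoryTheory AlgebraicGeometry

universe u v

namespace Pool.Agent.N209.GY

open Pool.Agent.N209.GX

section Alg

variable {K : Type*} [Field K] {A : Type*} [Ring A] [Algebra K A] {K' : Type*} [Field K']
  {A' : Type*} [Ring A'] [Algebra K' A'] {B : Type*} [Ring B] [Algebra K B] {B' : Type*} [Ring B']
  [Algebra K' B']

/-- The operator `φ` acts on the subspace `S` as multiplication by the rational number `c`. -/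
def ActsOn (S : Submodule K A) (φ : A →ₗ[K] A) (c : ℚ) : Prop := ∀ x ∈ S, φ x = (c : K) • x

/-- In every degree in which `φ` acts as a rational number, `φ'` acts as the same number. -/
def IsAverage (gr : ℕ → Submodule K A) (φ φ' : A →ₗ[K] A) : Prop :=
  ∀ i c, ActsOn (gr i) φ c → ActsOn (gr i) φ' c

/-- The map `ρ₂` looks like the restriction from `V × V` to `Z × Z`: it is a homomorphism compatible
with the pull-backs along the projections, it maps the set `C` of the classes of the cycles of
codimension `dim Z` on `V × V` to the set `C'` of these classes on `Z × Z`, and every element `z` of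
`C'` has an average which is the restriction of an element of `C` plus a multiple of the class `δ`
of the diagonal. -/
structure IsRestrAv (gr' : ℕ → Submodule K' A') (p q : A → B) (p' q' : A' → B')
    (corr : B' → A' →ₗ[K'] A') (C : Set B) (C' : Set B') (δ : B') (σ : K →+* K') (ρ : A → A')
    (ρ₂ : B → B') : Prop where
  hom : IsSemiHom σ ρ₂
  fst : ∀ a, ρ₂ (p a) = p' (ρ a)
  snd : ∀ a, ρ₂ (q a) = q' (ρ a)
  restrict : ∀ x ∈ C, ρ₂ x ∈ C'
  average : ∀ z ∈ C', ∃ x ∈ C, ∃ r : ℚ, IsAverage gr' (corr z) (corr (ρ₂ x + (r : K') • δ))

end Alg

open Pool.Agent.H914 Pool.Agent.N190.FE VarClass Obj WeilCohomology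

section Defs

variable {k : Type u} [Field k] {𝒱 : VarClass k} {ops : CycleOps 𝒱}

/-- Some cycle on `Z × Z` of codimension `dim Z` acts as the identity on the cohomology in the
middle degree `dim Z`, and as zero in the degree `dim Z - 1` below it. -/
def SplitsMiddle (W : WeilCohomology.{u, v} ops) (Z : 𝒱.Obj) : Prop :=
  ∃ x ∈ classes W (Z.prod Z) Z.dim, ActsOn (W.gr Z Z.dim) (W.corr x) 1 ∧
    ∀ i, i + 1 = Z.dim → ActsOn (W.gr Z i) (W.corr x) 0

variable {k' : Type u} [Field k'] {𝒱' : VarClass k'} {ops' : CycleOps 𝒱'}

/-- `Z` behaves like the generic hyperplane section of `V` with respect to the very ample divisor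
`E`: a variety over the algebraic closure `k'` of the function field `k(T)` of the dual projective
space `T`, with the corresponding cohomology theory. All the properties are theorems if `E` is
sufficiently ample. (The property `average`: the average of the conjugates of a cycle on `Z × Z`
under the Galois group of `k'` over `k(T)` may be defined over `k(T)`; it acts by the same rational
number in each degree in which the cycle acts by a rational number; and the cycles of codimension
`dim Z` over `k(T)` are the restrictions from `V × V` and the multiples of the diagonal, since the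
square over `T` of the universal section is a projective bundle over the complement of the diagonal
of `V × V`, and one over the diagonal.) -/
structure HyperplaneSection (W : WeilCohomology.{u, v} ops) (W' : WeilCohomology.{u, v} ops')
    (V : 𝒱.Obj) (E : V.Cycles) where
  /-- the section -/
  Z : 𝒱'.Obj
  dim_eq : V.dim = Z.dim + 1
  /-- the homomorphism of the coefficient fields -/
  σ : W.K →+* W'.K
  /-- the restriction from `V` to `Z` -/
  ρ : W.H V → W'.H Z
  /-- the restriction from `V × V` to `Z × Z` -/
  ρ₂ : W.H (V.prod V) → W'.H (Z.prod Z)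
  restr : IsRestr (W.gr V) (W'.gr Z) (W.tr V) (W'.tr Z) (W.cl V E) Z.dim σ ρ
  restr₂ : IsRestrAv (W'.gr Z) (W.map (fst V V)) (W.map (snd V V)) (W'.map (fst Z Z))
    (W'.map (snd Z Z)) W'.corr (classes W (V.prod V) Z.dim) (classes W' (Z.prod Z) Z.dim)
    (W'.cl (Z.prod Z) (ops'.push (diag Z) Z.V.fundCycle)) σ ρ ρ₂

end Defs

section Ext

variable {k₁ : Type u} [Field k₁] {𝒱₁ : VarClass k₁} {ops₁ : CycleOps 𝒱₁}

/-- Over one of the extensions in `𝓔` there is a generic hyperplane section of the square of `Y`,
for the divisor `D × Y + Y × D`. -/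
def HasSection {W₁ : WeilCohomology.{u, v} ops₁} (𝓔 : Set (Extension W₁)) (Y : 𝒱₁.Obj)
    (D : Y.Cycles) : Prop :=
  ∃ F ∈ 𝓔, Nonempty (HyperplaneSection W₁ F.W (Y.prod Y) (addDiv ops₁ D D))

/-- For every variety `X` over `k₁` of positive dimension there is a divisor `D` on `X` with hard
Lefschetz (any sufficiently ample divisor) such that, over one of the extensions in `𝓔`, there is a
generic hyperplane section of the square of `X × P × P` with respect to the divisor defined by `D`
and by `h` (`P` is the projective line over `k₁` and `h` is a point of `P`). -/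
def HasSections {W₁ : WeilCohomology.{u, v} ops₁} (𝓔 : Set (Extension W₁)) (P : 𝒱₁.Obj)
    (h : P.Cycles) : Prop :=
  ∀ X : 𝒱₁.Obj, 1 ≤ X.dim → ∃ D, Lef W₁ X D ∧
    HasSection 𝓔 ((X.prod P).prod P) (addDiv ops₁ (addDiv ops₁ D h) h)

end Ext

end Pool.Agent.N209.GY
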