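import Pool.Agent.N209.GY.Defs
import Pool.Agent.N209.GX.Main

/-!
# The separation of the middle degree from the degree below it
-/

set_option autoImplicit false

open CategoryTheory AlgebraicGeometry

universe u v

namespace Pool.Agent.N209.GY

open Pool.Agent.N209.GX hiding HyperplaneSection HasSection HasSections SplitsMiddle
open Pool.Agent.H914 Pool.Agent.H447 Pool.Agent.TH720.LB Pool.Agent.N190.FE
  VarClass Obj WeilCohomology

section Sections

variable {k : Type u} [Field k] {𝒱 : VarClass k} {ops : CycleOps 𝒱}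
  {W : WeilCohomology.{u, v} ops} {k' : Type u} [Field k'] {𝒱' : VarClass k'}
  {ops' : CycleOps 𝒱'} {W' : WeilCohomology.{u, v} ops'} {V : 𝒱.Obj} {E : V.Cycles}

/-- The generic hyperplane section in the sense of the other definition. -/
noncomputable def HyperplaneSection.toOld (S : HyperplaneSection W W' V E) :
    GX.HyperplaneSection W W' V E where
  Z := S.Z
  dim_eq := S.dim_eq
  σ := S.σ
  ρ := S.ρ
  ρ₂ := S.ρ₂
  restr := S.restr
  restr₂ :=
    { hom := S.restr₂.hom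
      fst := S.restr₂.fst
      snd := S.restr₂.snd
      restrict := S.restr₂.restrict
      cycles := by
        intro f z hz hf
        obtain ⟨x, hx, r, h⟩ := S.restr₂.average z hz
        refine ⟨x, hx, r, ?_⟩
        rw [← sub_eq_zero]
        apply corr_inj
        apply LinearMap.ext
        intro y
        refine gr_induction (W'.isInternal S.Z) (p := fun y => W'.corr (z - (S.ρ₂ x +
          (r : W'.K) • W'.cl (S.Z.prod S.Z) (ops'.push (diag S.Z) S.Z.V.fundCycle))) y =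
          (0 : W'.H S.Z →ₗ[W'.K] W'.H S.Z) y) ?_ ?_ y
        · intro i y hy
          have h1 := h i (f i) (fun y hy => hf i y hy) y hy
          have h2 := hf i y hy
          rw [Pool.Agent.W534.corr_sub'', LinearMap.sub_apply, h2, h1, sub_self, LinearMap.zero_apply]
        · intro a b ha hb
          rw [map_add, ha, hb, map_add] }

/-- A cycle on `Z × Z` which separates the middle degree from the degree below it gives an algebraic
inverse of the cup product with `E` just below the middle of `V`. -/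
theorem exists_inverse (S : HyperplaneSection W W' V E) (hE : V.IsCyc 1 E)
    (h : SplitsMiddle W' S.Z) :
    ∃ ζ, (V.prod V).IsCyc (V.dim - 1) ζ ∧
      ∀ i, i + 2 = V.dim → ∀ y ∈ W.gr V i, W.corr (W.cl _ ζ) (W.cl V E * y) = y := by
  obtain ⟨z, hz, h1, h0⟩ := h
  obtain ⟨x, hx, r, hr⟩ := S.restr₂.average z hz
  obtain ⟨ζ, hζ, rfl⟩ := hx
  set T : GS.GenericSection W W' V E := S.toOld.toGeneric with hT
  have hdim := S.dim_eq
  have hd : V.dim - 1 = S.Z.dim := by omega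
  have hr' : ∀ (i : ℕ) (c : ℚ), (∀ y ∈ W'.gr T.Z i, W'.corr z y = (c : W'.K) • y) →
      ∀ y ∈ W'.gr T.Z i, W'.corr (T.res₂ (W.cl (V.prod V) ζ) +
        (r : W'.K) • GS.diagClass W' T.Z) y = (c : W'.K) • y := hr
  have hact : ∀ y : W'.H T.Z, W'.corr (T.res₂ (W.cl (V.prod V) ζ) +
      (r : W'.K) • GS.diagClass W' T.Z) y =
      W'.corr (T.res₂ (W.cl _ ζ)) y + (r : W'.K) • y := by
    intro y
    rw [corr_add, corr_smul, LinearMap.add_apply, LinearMap.smul_apply, GS.corr_diagClass]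
  have hr1 : (r : W'.K) = 1 := by
    obtain ⟨y₀, hy₀, hne, hperp⟩ := T.vanishing
    have h2 := hr' T.Z.dim 1 h1 y₀ hy₀
    rw [hact, T.corr_vanishing _ hy₀ hperp, zero_add, Rat.cast_one, one_smul] at h2
    have h3 : ((r : W'.K) - 1) • y₀ = 0 := by rw [sub_smul, h2, one_smul, sub_self]
    rcases smul_eq_zero.1 h3 with h4 | h4
    · exact sub_eq_zero.1 h4
    · exact absurd h4 hne
  refine ⟨(-1 : ℚ) • ζ, by rw [hd]; exact hζ.smul _, fun i hi y hy => ?_⟩
  have hi' : i + 1 = S.Z.dim := by omega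
  have h2 := hr' i 0 (h0 i hi') (T.res y) (T.res_mem hy)
  rw [hact, T.corr_res hE, hr1, one_smul, Rat.cast_zero, zero_smul, ← map_add] at h2
  have hmem : W.corr (W.cl _ ζ) (W.cl V E * y) ∈ W.gr V i := by
    have h3 := W.corr_isHom (W.cl_mem hζ) ((2 * 1 + i : ℕ) : ℤ) (W.cl V E * y)
      (by rw [grZ_natCast]; exact W.mul_mem (W.cl_mem hE) hy)
    have e : ((2 * 1 + i : ℕ) : ℤ) + 2 * (((S.Z.dim : ℕ) : ℤ) - V.dim) = (i : ℤ) := by omega
    rwa [e, grZ_natCast] at h3
  have h3 := T.inj i (by show i ≤ S.Z.dim; omega) _ (Submodule.add_mem _ hmem hy) h2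
  rw [cl_smul, corr_smul, LinearMap.smul_apply, eq_neg_of_add_eq_zero_left h3, Rat.cast_neg,
    Rat.cast_one, neg_smul, one_smul, neg_neg]

lemma half_of_splits {X : 𝒱.Obj} {D : X.Cycles} (hD : X.IsCyc 1 D) (hn : 1 ≤ X.dim)
    (S : HyperplaneSection W W' (X.prod X) (sumDiv ops D D)) (hS : SplitsMiddle W' S.Z) :
    GS.HalfInv W X D := by
  obtain ⟨ζ, hζ, hinv⟩ := exists_inverse S (isCyc_sumDiv hD hD) hS
  intro g hg ha
  exact GS.kop_of_inverse hD hn hζ hinv hg ha

lemma splits_of_conjC {X : 𝒱.Obj} (h : ConjC W X) : SplitsMiddle W X := by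
  obtain ⟨x, hx, hx'⟩ := h X.dim
  refine ⟨x, hx, fun y hy => ?_, fun i hi y hy => ?_⟩
  · have h1 := hx' X.dim y hy
    beta_reduce at h1
    rw [h1, if_pos rfl]
  · have h1 := hx' i y hy
    beta_reduce at h1
    rw [h1, if_neg (by omega)]

end Sections

section Ext

variable {k₁ : Type u} [Field k₁] {𝒱₁ : VarClass k₁} {ops₁ : CycleOps 𝒱₁}
  {W₁ : WeilCohomology.{u, v} ops₁} {𝓔 : Set (Extension W₁)} {P : 𝒱₁.Obj} {h : P.Cycles}

lemma HasSections.toOld (hS : HasSections 𝓔 P h) : GX.HasSections 𝓔 P h := by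
  intro X hX
  obtain ⟨D, hD, F, hF, ⟨S⟩⟩ := hS X hX
  exact ⟨D, hD, F, hF, ⟨S.toOld⟩⟩

/-- The conjecture B over `k₁` from the sign conjecture over `k₁` and the separation of the middle
degree from the one below it over the extensions. -/
theorem lsc_of_splits (hP : LineLike W₁ P h) (hS : HasSections 𝓔 P h)
    (hs : ∀ X : 𝒱₁.Obj, SignStd W₁ X)
    (hsep : ∀ F ∈ 𝓔, ∀ Z : F.𝒱.Obj, Odd Z.dim → SplitsMiddle F.W Z) : LSC W₁ := by
  apply lsc_of_lefschetzB
  intro X D hL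
  rcases Nat.eq_zero_or_pos X.dim with h0 | hpos
  · exact GS.lefschetzB_zero h0
  obtain ⟨E, hE, F, hF, ⟨S⟩⟩ := hS X hpos
  have hPl := GS.IsProjectiveLine.toLine hP.toLine
  have hcyc : (X.prod P).IsCyc 1 (sumDiv ops₁ E h) := isCyc_sumDiv hE.1 hPl.proj.to.div
  have hcyc' : ((X.prod P).prod P).IsCyc 1 (sumDiv ops₁ (sumDiv ops₁ E h) h) :=
    isCyc_sumDiv hcyc hPl.proj.to.div
  have hdim : (X.prod P).dim = X.dim + 1 := by rw [dim_prod X P, hPl.dim]
  have hdim' : ((X.prod P).prod P).dim = X.dim + 1 + 1 := by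
    rw [dim_prod (X.prod P) P, hdim, hPl.dim]
  have hZ : Odd S.Z.dim := by
    have h1 := S.dim_eq
    rw [dim_prod] at h1
    rw [Nat.odd_iff]
    omega
  exact Pool.Agent.W534.lefschetzB_indep hE.1 hE.2 hL.1 hL.2
    (GS.lefschetzB_of_half hPl hE.1 hE.2 (hs X)
      (half_of_splits hcyc' (by omega) S (hsep F hF S.Z hZ)))

/-- **The equivalences.** -/
theorem main_tfae (hP : LineLike W₁ P h) (hS : HasSections 𝓔 P h) :
    List.TFAE [LSC W₁, ∀ F ∈ 𝓔, LSC F.W, ∀ F ∈ 𝓔, ∀ X, ConjC F.W X,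
      ∀ F ∈ 𝓔, ∀ X, ConjSign F.W X,
      (∀ X, ConjSign W₁ X) ∧ ∀ F ∈ 𝓔, ∀ X : F.𝒱.Obj, Odd X.dim → SplitsMiddle F.W X] := by
  have ht := GX.main_tfae hP hS.toOld
  tfae_have 1 ↔ 2 := ht.out 0 1
  tfae_have 1 ↔ 3 := ht.out 0 2
  tfae_have 1 ↔ 4 := ht.out 0 3
  have h35 : (∀ F ∈ 𝓔, ∀ X, ConjC F.W X) ↔ _ := ht.out 2 4
  tfae_have 3 → 5 := fun h3 => ⟨(h35.1 h3).1, fun F hF X _ => splits_of_conjC (h3 F hF X)⟩
  tfae_have 5 → 1 := fun h5 => lsc_of_splits hP hS (fun X => conjSign_iff.1 (h5.1 X)) h5.2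
  tfae_finish

end Ext

end Pool.Agent.N209.GY
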