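import Pool.Agent.N209.GY.SignDefs
import Pool.Agent.N209.GY.Main

/-!
# The sign conjecture for generic hyperplane sections
-/

set_option autoImplicit false

open CategoryTheory AlgebraicGeometry

universe u v

namespace Pool.Agent.N209.GY

open Pool.Agent.N209.GX hiding HyperplaneSection HasSection HasSections SplitsMiddle
open Pool.Agent.H914 Pool.Agent.H447 Pool.Agent.TH720.LB Pool.Agent.N190.FE
  VarClass Obj WeilCohomology

section Sections

variable {k : Type u} [Field k] {𝒱 : VarClass k} {ops : CycleOps 𝒱}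
  {W : WeilCohomology.{u, v} ops}

/-- The sign conjecture separates the middle degree from the degree below it. -/
lemma splits_of_sign {Z : 𝒱.Obj} (h : SignStd W Z) : SplitsMiddle W Z := by
  obtain ⟨Q, hQ, hQ'⟩ := h
  by_cases hm : Even Z.dim
  · refine ⟨_, ⟨Q, hQ, rfl⟩, fun y hy => ?_, fun i hi y hy => ?_⟩
    · rw [hQ' _ y hy, if_pos hm, Rat.cast_one, one_smul]
    · have : ¬ Even i := by
        intro h1
        rw [← hi] at hm
        exact (Nat.not_even_iff_odd.2 (Even.add_one h1)) hm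
      rw [hQ' _ y hy, if_neg this, Rat.cast_zero, zero_smul]
  · have hδ : (Z.prod Z).IsCyc Z.dim (ops.push (diag Z) Z.V.fundCycle) :=
      ops.push_mem (diag Z) Z.V.fundCycle_mem (by rw [dim_prod]; omega)
    have hc : (Z.prod Z).IsCyc Z.dim (ops.push (diag Z) Z.V.fundCycle + (-1 : ℚ) • Q) :=
      hδ.add (hQ.smul _)
    have hact : ∀ y : W.H Z, W.corr (W.cl (Z.prod Z) (ops.push (diag Z) Z.V.fundCycle +
        (-1 : ℚ) • Q)) y = y - W.corr (W.cl _ Q) y := by
      intro y
      rw [map_add, cl_smul, corr_add, corr_smul, LinearMap.add_apply, LinearMap.smul_apply]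
      have h2 := GS.corr_diagClass W Z y
      rw [GS.diagClass] at h2
      rw [h2, Rat.cast_neg, Rat.cast_one, neg_smul, one_smul, sub_eq_add_neg]
    refine ⟨_, ⟨_, hc, rfl⟩, fun y hy => ?_, fun i hi y hy => ?_⟩
    · rw [hact, hQ' _ y hy, if_neg hm, sub_zero, Rat.cast_one, one_smul]
    · have : Even i := by
        by_contra h1
        rw [← hi] at hm
        exact hm (Odd.add_one (Nat.not_even_iff_odd.1 h1))
      rw [hact, hQ' _ y hy, if_pos this, sub_self, Rat.cast_zero, zero_smul]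

end Sections

section Ext

variable {k₁ : Type u} [Field k₁] {𝒱₁ : VarClass k₁} {ops₁ : CycleOps 𝒱₁}
  {W₁ : WeilCohomology.{u, v} ops₁} {𝓔 : Set (Extension W₁)} {P : 𝒱₁.Obj} {h : P.Cycles}

/-- The conjecture B over `k₁` from the sign conjecture over `k₁` and the separation of the middle
degree from the one below it for the generic hyperplane sections. -/
theorem lsc_of_sections (hP : LineLike W₁ P h) (hS : HasSections 𝓔 P h)
    (hs : ∀ X : 𝒱₁.Obj, SignStd W₁ X)
    (hsep : OnSections 𝓔 P h fun F Z => SplitsMiddle F.W Z) : LSC W₁ := by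
  apply lsc_of_lefschetzB
  intro X D hL
  rcases Nat.eq_zero_or_pos X.dim with h0 | hpos
  · exact GS.lefschetzB_zero h0
  obtain ⟨E, hE, F, hF, ⟨S⟩⟩ := hS X hpos
  have hPl := GS.IsProjectiveLine.toLine hP.toLine
  have hcyc : (X.prod P).IsCyc 1 (sumDiv ops₁ E h) := isCyc_sumDiv hE.1 hPl.proj.to.div
  have hcyc' : ((X.prod P).prod P).IsCyc 1 (sumDiv ops₁ (sumDiv ops₁ E h) h) :=
    isCyc_sumDiv hcyc hPl.proj.to.div
  have hdim : (X.prod P).dim = X.dim + 1 := by rw [dim_prod X P, hPl.dim]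
  have hdim' : ((X.prod P).prod P).dim = X.dim + 1 + 1 := by
    rw [dim_prod (X.prod P) P, hdim, hPl.dim]
  exact Pool.Agent.W534.lefschetzB_indep hE.1 hE.2 hL.1 hL.2
    (GS.lefschetzB_of_half hPl hE.1 hE.2 (hs X)
      (half_of_splits hcyc' (by omega) S (hsep X E hpos hE F hF S)))

/-- The sign conjecture over `k₁` from the sign conjecture for the generic hyperplane sections. -/
theorem sign_of_sections (hP : LineLike W₁ P h) (hS : HasSections 𝓔 P h)
    (hs : OnSections 𝓔 P h fun F Z => ConjSign F.W Z) (X : 𝒱₁.Obj) : SignStd W₁ X := by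
  rcases Nat.eq_zero_or_pos X.dim with h0 | hpos
  · exact sign_zero h0
  obtain ⟨E, hE, F, hF, ⟨S⟩⟩ := hS X hpos
  have hPl := GS.IsProjectiveLine.toLine hP.toLine
  have hcyc : (X.prod P).IsCyc 1 (sumDiv ops₁ E h) := isCyc_sumDiv hE.1 hPl.proj.to.div
  have hcyc' : ((X.prod P).prod P).IsCyc 1 (sumDiv ops₁ (sumDiv ops₁ E h) h) :=
    isCyc_sumDiv hcyc hPl.proj.to.div
  have hX' := hPl.hard_prod hE.1 hE.2
  have hX'' := hPl.hard_prod hcyc hX'
  have hdim : (X.prod P).dim = X.dim + 1 := by rw [dim_prod X P, hPl.dim]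
  have hdim' : ((X.prod P).prod P).dim = X.dim + 1 + 1 := by
    rw [dim_prod (X.prod P) P, hdim, hPl.dim]
  exact GS.sign_down hPl (GS.sign_down hPl (GS.sign_of_section hcyc' hX'' (by omega)
    (isCyc_sumDiv hcyc' hcyc') S.toOld.toGeneric (conjSign_iff.1 (hs X E hpos hE F hF S))))

/-- **The sign conjecture: the equivalences.** -/
theorem sign_tfae (hP : LineLike W₁ P h) (hS : HasSections 𝓔 P h) :
    List.TFAE [∀ F ∈ 𝓔, ∀ X, ConjSign F.W X, OnSections 𝓔 P h fun F Z => ConjSign F.W Z,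
      (∀ X, ConjSign W₁ X) ∧ OnSections 𝓔 P h fun F Z => SplitsMiddle F.W Z, LSC W₁] := by
  have ht := GX.main_tfae hP hS.toOld
  tfae_have 1 → 2 := fun h1 X D _ _ F hF S => h1 F hF S.Z
  tfae_have 2 → 3 := fun h2 => ⟨fun X => conjSign_iff.2 (sign_of_sections hP hS h2 X),
    fun X D hX hD F hF S => splits_of_sign (conjSign_iff.1 (h2 X D hX hD F hF S))⟩
  tfae_have 3 → 4 := fun h3 => lsc_of_sections hP hS (fun X => conjSign_iff.1 (h3.1 X)) h3.2
  have h14 : LSC W₁ ↔ ∀ F ∈ 𝓔, ∀ X, ConjSign F.W X := ht.out 0 3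
  tfae_have 4 → 1 := h14.1
  tfae_finish

end Ext

end Pool.Agent.N209.GY
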