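import Pool.Agent.N209.GY.Defs

/-!
# The sign conjecture for generic hyperplane sections: definitions
-/

set_option autoImplicit false

open CategoryTheory AlgebraicGeometry

universe u v

namespace Pool.Agent.N209.GY

open Pool.Agent.N209.GX Pool.Agent.H914 Pool.Agent.N190.FE VarClass Obj

variable {k₁ : Type u} [Field k₁] {𝒱₁ : VarClass k₁} {ops₁ : CycleOps 𝒱₁}

/-- The generic hyperplane sections `Z` of the squares of the varieties `X × P × P`, `X` a variety
over `k₁` of positive dimension with a divisor `D` satisfying hard Lefschetz, with respect to the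
divisor defined by `D` and `h`, over the extensions in `𝓔`, have the property `C`. -/
def OnSections {W₁ : WeilCohomology.{u, v} ops₁} (𝓔 : Set (Extension W₁)) (P : 𝒱₁.Obj)
    (h : P.Cycles) (C : ∀ F : Extension W₁, F.𝒱.Obj → Prop) : Prop :=
  ∀ (X : 𝒱₁.Obj) (D : X.Cycles), 1 ≤ X.dim → Lef W₁ X D → ∀ F ∈ 𝓔,
    ∀ S : HyperplaneSection W₁ F.W (((X.prod P).prod P).prod ((X.prod P).prod P))
      (addDiv ops₁ (addDiv ops₁ (addDiv ops₁ D h) h) (addDiv ops₁ (addDiv ops₁ D h) h)), C F S.Z

end Pool.Agent.N209.GY
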